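import Pool.Agent.Results.MP_e6aa12_ag.ThinSequencesOfMultiplicities
import Pool.Agent.U569.APL.Fat

/-!
# General collisions of `r ≥ 10` fat points: all degrees, multiplicities formed from arbitrary sets

Let a sequence (`j = 0, 1, 2, …`) of families of integers be given. The members of the `j`-th family are
`m = c₀ + y`, where `c₀` is an arbitrary integer (depending on `j`, of any size) and `y` is one of the following numbers:

* the representatives in `0, …, q - 1` of any family of residues modulo some `q` (depending on `j`) whose nontrivial Fourier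
  coefficients are at most `1 / (Z (42 + 3 log q))`, where `Z → ∞`, `Z ≤ q`;
* the residues `β(x, z) + u(x) + w(z)` modulo a prime `P → ∞`, where `β : k ^ a × k ^ b → k` is bilinear of rank at least
  `ρ`, `x` and `z` are in ARBITRARY sets `E` and `F` with `|E| |F| ≥ P ^ (a + b - ρ + δ)`, `u` and `w` are arbitrary
  functions (for `δ > 0` fixed); for example all the products `x z` of residues from two ARBITRARY sets with
  `|E| |F| ≥ P ^ (1 + δ)`;
* the values of polynomials in several variables of degree at most `P ^ (δ / 4)` with a monomial with at least two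
  variables, plus arbitrary functions of the single variables, on products of ARBITRARY sets of at least
  `P ^ (1 / 2 + δ)` residues;
* the values of polynomials in one variable of degree from `1` to `P ^ (δ / 4)` on any subgroup of the multiplicative group
  modulo `P` with at least `P ^ (1 / 2 + δ)` elements.

**Theorem.** (1) For every `r ≥ 10` and `ε > 0`, for large `j` all but at most `(bad r + ε) size` of the members `m ≥ 1` of
the `j`-th family have this property: the space of the forms of degree `d` on the scheme with ideal
`(y - (a₀ + a₁ x + ... + a_(r-1) x ^ (r-1)), (x - c) ^ r) ^ m` has the expected dimension in EVERY degree `d`, over every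
field of characteristic zero and for all `(c, a)` outside a hypersurface; `bad r < 1`, and `bad r = 0` if `r` is a square.

(2) For `r = 10, …, 15` the same holds over EVERY field, of any characteristic, for all but at most
`(badAll r + ε) size` of the members `m ≥ 1`, `badAll r < 1`.

Proof. The exceptional multiplicities `m` satisfy `α m + β ∈ [lo, hi]` modulo one, with a quadratic irrational number `α`
(starting library). The exponential sums `∑ e(θ m)` over the families are small for every real number `θ` which is not an
integer, by completion (`N384.VF.char_le`); this gives the distribution of `α m` modulo one, and of all the numbers `√n m`,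
`n` squarefree, at the same time (`U569/APL/Kron`).
-/

set_option autoImplicit false

namespace Pool.Agent.Results.MP_e6aa12_ag.ArbitrarySets

open Filter
open Pool.Agent.N141.SG (three_lt win_nonneg)
open Pool.Agent.Results.MP_e6aa12_ag.ThinSequencesOfMultiplicities (AllDegrees AllDegreesAllFields bad badAll not_square
  window3 window_all window squares of_all bad_lt badAll_lt)
open Pool.Agent.U569.APL

universe u

/-- **General collisions of fat points with multiplicities formed from arbitrary sets.** -/
theorem result :
    (∀ (τ : ℕ → Type) (s : ∀ j, Finset (τ j)) (v : ∀ j, τ j → Fin 1 → ℤ), FlatFamilies s v → ∀ ε : ℝ, 0 < ε →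
      -- characteristic zero, every number of points
      (∀ r : ℕ, 10 ≤ r → ∀ᶠ j in atTop,
        ({i : τ j | i ∈ s j ∧ 1 ≤ v j i 0 ∧ ¬ AllDegrees.{u} r (v j i 0).toNat}.ncard : ℝ) ≤
          (bad r + ε) * (s j).card) ∧
      -- all fields, ten to fifteen points
      (∀ r : ℕ, 10 ≤ r → r ≤ 15 → ∀ᶠ j in atTop,
        ({i : τ j | i ∈ s j ∧ 1 ≤ v j i 0 ∧ ¬ AllDegreesAllFields.{u} r (v j i 0).toNat}.ncard : ℝ) ≤
          (badAll r + ε) * (s j).card)) ∧
    (∀ r : ℕ, 10 ≤ r → bad r < 1) ∧ (∀ r : ℕ, r ≤ 15 → badAll r < 1) ∧
    Examples (Fin 1) := by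
  classical
  refine ⟨fun τ s v hs ε hε => ?_, fun r hr => bad_lt hr, fun r hr' => badAll_lt hr', examples _⟩
  have hall : ∀ r : ℕ, 10 ≤ r → r ≤ 15 → ∀ᶠ j in atTop,
      ({i : τ j | i ∈ s j ∧ 1 ≤ v j i 0 ∧ ¬ AllDegreesAllFields.{u} r (v j i 0).toNat}.ncard : ℝ) ≤
        (badAll r + ε) * (s j).card := by
    intro r hr hr'
    have hs3 := three_lt hr
    have hirr : Irrational √(r : ℝ) := irrational_sqrt_natCast_iff.2 (not_square hr hr')
    by_cases h11 : r = 11 ∨ r = 13
    · have e : badAll r = 0 - (-((√(r : ℝ) - 3) / 6)) := by
        unfold badAll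
        rw [if_pos h11]
        ring
      rw [e]
      have hirr3 : Irrational (√(r : ℝ) / 3) := by
        have := hirr.div_natCast (m := 3) (by norm_num)
        simpa using this
      exact flat_count hs 0 hirr3 0 (by linarith)
        (bad := fun m => ¬ AllDegreesAllFields.{u} r m) (fun m _ hbad => window3 h11 hbad) hε
    · have e : badAll r = 0 - (-(√(r : ℝ) - 3)) := by
        unfold badAll
        rw [if_neg h11]
        ring
      rw [e]
      exact flat_count hs 0 hirr 0 (by linarith)
        (bad := fun m => ¬ AllDegreesAllFields.{u} r m) (fun m _ hbad => window_all hr hbad) hε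
  refine ⟨fun r hr => ?_, hall⟩
  by_cases hsq : IsSquare r
  · have e : bad r = 0 := by
      unfold bad
      rw [if_pos hsq]
    rw [e, zero_add]
    exact flat_none 0 (bad := fun m => ¬ AllDegrees.{u} r m) (fun m _ hbad => hbad (squares hr hsq)) hε.le
  · by_cases h11 : r = 11 ∨ r = 13
    · have e : bad r = badAll r := by
        unfold bad badAll
        rw [if_neg hsq, if_pos h11, if_pos h11]
      rw [e]
      filter_upwards [hall r hr (by omega)] with j hj
      refine le_trans ?_ hj
      have h1 : {i : τ j | i ∈ s j ∧ 1 ≤ v j i 0 ∧ ¬ AllDegrees.{u} r (v j i 0).toNat} ⊆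
          {i : τ j | i ∈ s j ∧ 1 ≤ v j i 0 ∧ ¬ AllDegreesAllFields.{u} r (v j i 0).toNat} :=
        fun t ht => ⟨ht.1, ht.2.1, fun h2 => ht.2.2 (of_all h2)⟩
      exact_mod_cast Set.ncard_le_ncard h1 ((Finset.finite_toSet (s j)).subset fun t ht => ht.1)
    · obtain ⟨g1, g2⟩ := win_nonneg hr
      have e : bad r = min (√(r : ℝ) - 3) (2 / 3 + 9 / (4 * √(r : ℝ))) / 2 -
          (-(min (√(r : ℝ) - 3) (2 / 3 + 1 / (4 * √(r : ℝ))) / 2)) := by
        unfold bad
        rw [if_neg hsq, if_neg h11]
        ring
      rw [e]
      have hs3 := three_lt hr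
      have hirr : Irrational √(r : ℝ) := irrational_sqrt_natCast_iff.2 hsq
      exact flat_count hs 0 hirr ((√(r : ℝ) - 3) / 2)
        (by linarith) (bad := fun m => ¬ AllDegrees.{u} r m) (fun m _ hbad => window hr hbad) hε

end Pool.Agent.Results.MP_e6aa12_ag.ArbitrarySets
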