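import Mathlib
import Pool.Agent.U11.CollOne3

set_option autoImplicit false

/-!
# Collisions of eleven fat points: every multiplicity, every degree, up to one form

Let `m ≥ 1` be ANY multiplicity and let `k` be a field of characteristic zero. For all `(c, a)` outside a
hypersurface and EVERY degree `d` the space of the forms of degree `d` through the subscheme of the
plane with ideal `(y - (a₀ + a₁ x + ... + a₁₀ x ^ 10), (x - c) ^ 11) ^ m` has the expected dimension, or there
are fewer monomials than conditions and the dimension is exactly one. The second case is only possible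
if `3 ∣ d` and `3 (√11 - 3) / (√11 + 3) ≤ d - √11 m < (√11 - 3) / 2`. In particular the dimension is the
expected one whenever there are at least as many monomials as conditions.
-/

namespace Pool.Agent.Results.MP_e6aa12_ag.ElevenExpectedOrOne

open Polynomial

universe u

/-- The forms of degree `d` in three variables whose dehomogenisation lies in the ideal
`(y - ∑ a_j x ^ j, (x - c) ^ r) ^ m` of `k[x][y]`. -/
noncomputable def forms {k : Type u} [Field k] {r : ℕ} (m : ℕ) (c : k) (a : Fin r → k) (d : ℕ) :
    Submodule k (MvPolynomial (Fin 3) k) :=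
  MvPolynomial.homogeneousSubmodule (Fin 3) k d ⊓
    (Submodule.restrictScalars k
      ((Ideal.span {X - C (∑ j : Fin r, C (a j) * X ^ (j : ℕ)), C ((X - C c) ^ r)} :
        Ideal k[X][X]) ^ m)).comap
      (MvPolynomial.aeval ![C X, X, 1] :
        MvPolynomial (Fin 3) k →ₐ[k] k[X][X]).toLinearMap

theorem result (m : ℕ) (hm : 1 ≤ m) (k : Type u) [Field k] [CharZero k] :
    ∃ F : MvPolynomial (Fin (11 + 1)) k, F ≠ 0 ∧
      ∀ (c : k) (a : Fin 11 → k), MvPolynomial.eval (Fin.cons c a : Fin (11 + 1) → k) F ≠ 0 →
        ∀ d : ℕ,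
          Module.finrank k (forms m c a d) = Nat.choose (d + 2) 2 - 11 * Nat.choose (m + 1) 2 ∨
          (3 ∣ d ∧ 3 * (√11 - 3) / (√11 + 3) ≤ (d : ℝ) - √11 * m ∧
            (d : ℝ) - √11 * m < (√11 - 3) / 2 ∧
            Nat.choose (d + 2) 2 < 11 * Nat.choose (m + 1) 2 ∧
            Module.finrank k (forms m c a d) = 1) := by
  obtain ⟨F, hF, hF'⟩ := U11.eleven_coll_one hm k
  exact ⟨F, hF, fun c a hc d => hF' c a hc d⟩

end Pool.Agent.Results.MP_e6aa12_ag.ElevenExpectedOrOne
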