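import Mathlib
import Pool.Agent.U11.Coll

set_option autoImplicit false

/-!
# Collisions of eleven fat points: the window shrinks to zero, characteristic zero

For every `ε > 0` there is `m₀` such that for every `m ≥ m₀`, every field `k` of characteristic zero and all
`(c, a)` outside a hypersurface, the forms of degree `d` through the subscheme of the plane with ideal
`(y - (a₀ + a₁ x + ... + a₁₀ x ^ 10), (x - c) ^ 11) ^ m` have the expected dimension in every degree `d`,
except possibly the degrees divisible by three with `(√11 - 3) / 2 - ε < d - √11 m < (√11 - 3) / 2`.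
-/

namespace Pool.Agent.Results.MP_e6aa12_ag.ElevenShrinkingWindow

open Polynomial

universe u

/-- The forms of degree `d` in three variables whose dehomogenisation lies in the ideal
`(y - ∑ a_j x ^ j, (x - c) ^ r) ^ m` of `k[x][y]`. -/
noncomputable def forms {k : Type u} [Field k] {r : ℕ} (m : ℕ) (c : k) (a : Fin r → k) (d : ℕ) :
    Submodule k (MvPolynomial (Fin 3) k) :=
  MvPolynomial.homogeneousSubmodule (Fin 3) k d ⊓
    (Submodule.restrictScalars k
      ((Ideal.span {X - C (∑ j : Fin r, C (a j) * X ^ (j : ℕ)), C ((X - C c) ^ r)} :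
        Ideal k[X][X]) ^ m)).comap
      (MvPolynomial.aeval ![C X, X, 1] :
        MvPolynomial (Fin 3) k →ₐ[k] k[X][X]).toLinearMap

/-- Over every field of characteristic zero, for all `(c, a)` outside a hypersurface, the space of forms
has the expected dimension in all degrees `d` in the set `S`. -/
def Expected (r m : ℕ) (S : Set ℕ) : Prop :=
  ∀ (k : Type u) [Field k] [CharZero k],
    ∃ F : MvPolynomial (Fin (r + 1)) k, F ≠ 0 ∧
      ∀ (c : k) (a : Fin r → k), MvPolynomial.eval (Fin.cons c a : Fin (r + 1) → k) F ≠ 0 →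
        ∀ d ∈ S, Module.finrank k (forms m c a d) = Nat.choose (d + 2) 2 - r * Nat.choose (m + 1) 2

theorem result (ε : ℝ) (hε : 0 < ε) : ∃ m₀ : ℕ, ∀ m : ℕ, m₀ ≤ m → Expected.{u} 11 m
    {d | ¬ (3 ∣ d ∧ (√11 - 3) / 2 - ε < (d : ℝ) - √11 * m ∧ (d : ℝ) - √11 * m < (√11 - 3) / 2)} := by
  obtain ⟨m₀, hm₀⟩ := U11.eleven_coll4 hε
  refine ⟨m₀, fun m hm k _ _ => ?_⟩
  obtain ⟨F, hF, hF'⟩ := hm₀ m hm k
  exact ⟨F, hF, fun c a hc d hd => hF' c a hc d hd⟩

end Pool.Agent.Results.MP_e6aa12_ag.ElevenShrinkingWindow
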