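import Pool.Agent.Results.MP_e6aa12_ag.MetricMultiplicities
import Pool.Agent.U828.KD.SH

/-!
# General collisions of `r ≥ 10` fat points: all degrees, multiplicities given by arbitrary functions of a given order

Let `f` be an ARBITRARY function on the natural numbers of some order `c > 0`: for one `d > c` the differences of
order `d` of `f` have a constant sign and are `t ^ (c - d + o(1))` in absolute value. There is no smoothness and no
formula; examples are `t ^ c` with `c` not an integer, `t ^ j log t`, the functions of a Hardy field with the same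
growth, all these plus arbitrary real polynomials of degree below the order of the differences, and irregular functions.

**Theorem.** Let `m = ⌊f t⌋`. (1) For every `r ≥ 10`, all but at most `bad r * N + N ^ (1 - κ)` of the integers `t` in
`(N, 2 N]` with `f t ≥ 1` are such that the space of the forms of degree `e` on the scheme with ideal
`(y - (a₀ + a₁ x + ... + a_(r-1) x ^ (r-1)), (x - c) ^ r) ^ m` has the expected dimension in EVERY degree `e`, over every
field of characteristic zero and for all `(c, a)` outside a hypersurface; here `κ = κ(r, f) > 0`, `bad r < 1` and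
`bad r = 0` if `r` is a square. (2) For `r = 10, …, 15` the same holds over EVERY field, of any characteristic, with
`badAll r < 1` in the place of `bad r`.

The starting file `ThinSequencesOfMultiplicities` has generalised polynomials with non-integral leading exponents, and
`MetricMultiplicities` almost all members of families with a real parameter. The new ingredient is the derivative test for
arbitrary functions of helper828 (`Pool.Agent.U828.KD`), with an error which is a power of `N`.
-/

set_option autoImplicit false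

namespace Pool.Agent.Results.MP_e6aa12_ag.FunctionsOfGivenOrder

open Filter
open Pool.Agent.N141.SG (three_lt win_nonneg)
open Pool.Agent.U828.KD (count_order count_order_none bad_sqrt bad_sqrt3)
open Pool.Agent.Results.MP_e6aa12_ag.MetricMultiplicities (AllDegrees AllDegreesAllFields bad badAll not_square window3
  window_all window squares of_all bad_lt badAll_lt)

universe u

/-- The differences of order `d` of `f` have a constant sign and are `t ^ (c - d + o(1))` in absolute value. -/
def Order (d : ℕ) (c : ℝ) (f : ℕ → ℝ) : Prop :=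
  ∀ ε : ℝ, 0 < ε → ∃ T : ℕ,
    (∀ t : ℕ, T ≤ t → (t : ℝ) ^ (c - d - ε) ≤ (fwdDiff 1)^[d] f t ∧
      (fwdDiff 1)^[d] f t ≤ (t : ℝ) ^ (c - d + ε)) ∨
    (∀ t : ℕ, T ≤ t → (t : ℝ) ^ (c - d - ε) ≤ -(fwdDiff 1)^[d] f t ∧
      -(fwdDiff 1)^[d] f t ≤ (t : ℝ) ^ (c - d + ε))

/-- For all large `N`, at most `β N + N ^ (1 - κ)` of the integers `t` in `(N, 2 N]` are such that `f t ≥ 1` and the
multiplicity `⌊f t⌋` is bad, for some `κ > 0`. -/
def FewBad (f : ℕ → ℝ) (β : ℝ) (P : ℕ → Prop) : Prop :=
  ∃ κ : ℝ, 0 < κ ∧ ∃ N₀ : ℕ, ∀ N : ℕ, N₀ ≤ N →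
    ({t : ℕ | t ∈ Finset.Ioc N (2 * N) ∧ 1 ≤ f t ∧ P ⌊f t⌋₊}.ncard : ℝ) ≤ β * N + (N : ℝ) ^ (1 - κ)

/-- **General collisions of fat points along arbitrary functions of a given order.** -/
theorem result (d : ℕ) (c : ℝ) (hd : 2 ≤ d) (hc0 : 0 < c) (hcd : c < d) (f : ℕ → ℝ) (hf : Order d c f) :
    -- characteristic zero, every number of points
    (∀ r : ℕ, 10 ≤ r → bad r < 1 ∧ FewBad f (bad r) (fun m => ¬ AllDegrees.{u} r m)) ∧
    -- all fields, ten to fifteen points
    (∀ r : ℕ, 10 ≤ r → r ≤ 15 → badAll r < 1 ∧ FewBad f (badAll r) (fun m => ¬ AllDegreesAllFields.{u} r m)) := by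
  classical
  have hall : ∀ r : ℕ, 10 ≤ r → r ≤ 15 → FewBad f (badAll r) (fun m => ¬ AllDegreesAllFields.{u} r m) := by
    intro r hr hr'
    have hs3 := three_lt hr
    have hirr : Irrational √(r : ℝ) := irrational_sqrt_natCast_iff.2 (not_square hr hr')
    by_cases h11 : r = 11 ∨ r = 13
    · have e : badAll r = 0 - (-((√(r : ℝ) - 3) / 6)) := by
        unfold badAll
        rw [if_pos h11]
        ring
      rw [e]
      have hirr3 : Irrational (√(r : ℝ) / 3) := by
        have := hirr.div_natCast (m := 3) (by norm_num)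
        simpa using this
      exact count_order d hd c hc0 hcd f hf (√(r : ℝ) / 3) (by linarith) (bad_sqrt3 hirr3) 0 _ _ (by linarith)
        (fun m => ¬ AllDegreesAllFields.{u} r m) (fun m _ hbad => window3 h11 hbad)
    · have e : badAll r = 0 - (-(√(r : ℝ) - 3)) := by
        unfold badAll
        rw [if_neg h11]
        ring
      rw [e]
      exact count_order d hd c hc0 hcd f hf √(r : ℝ) (by linarith) (bad_sqrt hirr) 0 _ _ (by linarith)
        (fun m => ¬ AllDegreesAllFields.{u} r m) (fun m _ hbad => window_all hr hbad)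
  refine ⟨fun r hr => ⟨bad_lt hr, ?_⟩, fun r hr hr' => ⟨badAll_lt hr', hall r hr hr'⟩⟩
  by_cases hsq : IsSquare r
  · have e : bad r = 0 := by
      unfold bad
      rw [if_pos hsq]
    refine ⟨1, one_pos, 0, fun N _ => ?_⟩
    rw [e, zero_mul, zero_add]
    exact (count_order_none f (fun m => ¬ AllDegrees.{u} r m) (fun m _ hbad => hbad (squares hr hsq)) N).le.trans
      (by positivity)
  · by_cases h11 : r = 11 ∨ r = 13
    · have e : bad r = badAll r := by
        unfold bad badAll
        rw [if_neg hsq, if_pos h11, if_pos h11]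
      rw [e]
      obtain ⟨κ, hκ, N₀, h⟩ := hall r hr (by omega)
      refine ⟨κ, hκ, N₀, fun N hN => le_trans ?_ (h N hN)⟩
      have h1 : {t : ℕ | t ∈ Finset.Ioc N (2 * N) ∧ 1 ≤ f t ∧ ¬ AllDegrees.{u} r ⌊f t⌋₊} ⊆
          {t : ℕ | t ∈ Finset.Ioc N (2 * N) ∧ 1 ≤ f t ∧ ¬ AllDegreesAllFields.{u} r ⌊f t⌋₊} :=
        fun t ht => ⟨ht.1, ht.2.1, fun h2 => ht.2.2 (of_all h2)⟩
      exact_mod_cast Set.ncard_le_ncard h1 ((Finset.finite_toSet (Finset.Ioc N (2 * N))).subset fun t ht => ht.1)
    · obtain ⟨g1, g2⟩ := win_nonneg hr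
      have e : bad r = min (√(r : ℝ) - 3) (2 / 3 + 9 / (4 * √(r : ℝ))) / 2 -
          (-(min (√(r : ℝ) - 3) (2 / 3 + 1 / (4 * √(r : ℝ))) / 2)) := by
        unfold bad
        rw [if_neg hsq, if_neg h11]
        ring
      rw [e]
      have hs3 := three_lt hr
      have hirr : Irrational √(r : ℝ) := irrational_sqrt_natCast_iff.2 hsq
      exact count_order d hd c hc0 hcd f hf √(r : ℝ) (by linarith) (bad_sqrt hirr) ((√(r : ℝ) - 3) / 2) _ _
        (by linarith) (fun m => ¬ AllDegrees.{u} r m) (fun m _ hbad => window hr hbad)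

end Pool.Agent.Results.MP_e6aa12_ag.FunctionsOfGivenOrder
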